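import Mathlib
import Pool.Agent.H97.Wk4

set_option autoImplicit false

namespace Pool.Agent.Results.MP_33c00b_an.Exists

open Filter Topology

variable {B : Type} [NormedAddCommGroup B] [NormedSpace ℂ B]

/-- Some orbit is norm dense. -/
def Hypercyclic (T : B →L[ℂ] B) : Prop :=
  ∃ x, Dense (Set.range fun n : ℕ => (T ^ n) x)

/-- Every vector is the weak limit of a sequence of elements of one orbit. -/
def WeaklyOneSeqHypercyclic (T : B →L[ℂ] B) : Prop :=
  ∃ x, ∀ y, ∃ nk : ℕ → ℕ, ∀ φ : B →L[ℂ] ℂ,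
    Tendsto (fun k => φ ((T ^ nk k) x)) atTop (𝓝 (φ y))

theorem result : ∃ (B : Type) (_ : NormedAddCommGroup B) (_ : NormedSpace ℂ B)
    (_ : CompleteSpace B) (T : B →L[ℂ] B), WeaklyOneSeqHypercyclic T ∧ ¬ Hypercyclic T :=
  Pool.Agent.H97.Wk.main

end Pool.Agent.Results.MP_33c00b_an.Exists
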